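import Pool.Agent.W251.GX.Defs2
import Pool.Agent.W78.GA.Basic

/-!
Project GX (helper251), subtask HITG: local geometry for a general function `F` and an arbitrary
function `β` (adapted from the file HITA of helper766).
-/

set_option autoImplicit false

namespace Pool.Agent.W460.GX.Hitg

open Finset Filter
open Pool.Agent.W78.GA
open Pool.Agent.W84.FP (Gi cj)
open Pool.Agent.W251.GX

lemma hD : (0 : ℤ) ^ 2 < 4 * 1 := by norm_num

lemma prim_of_dt {v u : Gi} (h : dt v u = 1) : prim v ∧ prim u := by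
  unfold dt at h
  constructor
  · unfold prim
    rw [← Int.isCoprime_iff_gcd_eq_one]
    exact ⟨u.im, -u.re, by linarith⟩
  · unfold prim
    rw [← Int.isCoprime_iff_gcd_eq_one]
    exact ⟨-v.im, v.re, by linarith⟩

lemma mem_EG {R : Gi → Gi → Prop} {X : ℝ} {e : Gi × Gi} :
    e ∈ EG R X ↔ e ∈ dedge 0 1 X ∧ 0 < ip e.1 e.2 ∧ R e.1 e.2 := by
  classical
  unfold EG
  exact Finset.mem_filter

/-- the pair `x, y` is in `E` unless `F y = β x` -/
lemma pair_mem (F β : Gi → ℂ) {X : ℝ} {x y : Gi} (h1 : dt x y = 1)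
    (h2 : 0 < ip x y) (hx : (nm x : ℝ) ≤ X) (hy : (nm y : ℝ) ≤ X) :
    (x, y) ∈ EG (fun v w => F w ≠ β v) X ∨ F y = β x := by
  by_cases h : F y = β x
  · right
    exact h
  · left
    rw [mem_EG]
    refine ⟨?_, h2, h⟩
    unfold dedge
    rw [mem_filter, mem_product]
    exact ⟨⟨(mem_pball hD).2 ⟨(prim_of_dt h1).1, hx⟩, (mem_pball hD).2 ⟨(prim_of_dt h1).2, hy⟩⟩, h1⟩

lemma mem_Bs1 {E : Finset (Gi × Gi)} {C : ℝ} {x y : Gi} (h : (x, y) ∈ E) : x ∈ W251.GX.Bs E C := by
  unfold W251.GX.Bs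
  rw [mem_union, mem_biUnion]
  left
  exact ⟨(x, y), h, by simp⟩

lemma mem_Bs2 {E : Finset (Gi × Gi)} {C : ℝ} {x y : Gi} (h : (x, y) ∈ E) : y ∈ W251.GX.Bs E C := by
  unfold W251.GX.Bs
  rw [mem_union, mem_biUnion]
  left
  exact ⟨(x, y), h, by simp⟩

lemma mem_Bs3 {E : Finset (Gi × Gi)} {C : ℝ} {x y : Gi} (h : (x, y) ∈ E) : x + y ∈ W251.GX.Bs E C := by
  unfold W251.GX.Bs
  rw [mem_union, mem_biUnion]
  left
  exact ⟨(x, y), h, by simp⟩

lemma core (F β : Gi → ℂ) {X : ℝ} {e : Gi × Gi}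
    (he : e ∈ edge 0 1 X) (hne : F e.1 ≠ F e.2) :
    e.1 ∈ W251.GX.Bs (EG (fun v w => F w ≠ β v) X) 4 := by
  obtain ⟨v, w⟩ := e
  simp only at hne ⊢
  unfold edge at he
  rw [mem_filter, mem_product] at he
  obtain ⟨⟨hv, hw⟩, h1, h2⟩ := he
  simp only at hv hw h1 h2
  rw [mem_pball hD] at hv hw
  obtain ⟨hv1, hv2⟩ := hv
  obtain ⟨hw1, hw2⟩ := hw
  by_cases hN : nm v ≤ 4
  · unfold W251.GX.Bs
    rw [mem_union]
    right
    rw [mem_ball hD]
    exact ⟨(one_le_nm hD).2 (prim_ne_zero hv1), by exact_mod_cast hN⟩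
  push Not at hN
  -- integer facts
  have hpr := ip_dt hD v w
  have had := nm_add hD v w
  rw [h1] at hpr had
  have hlt1 : nm v < nm (v + w) := by
    have : (nm v : ℝ) < nm (v + w) := lt_of_le_of_lt hv2 h2
    exact_mod_cast this
  have hlt2 : nm w < nm (v + w) := by
    have : (nm w : ℝ) < nm (v + w) := lt_of_le_of_lt hw2 h2
    exact_mod_cast this
  have hN' : (5 : ℤ) ≤ (nm v : ℤ) := by exact_mod_cast hN
  have hlt1' : (nm v : ℤ) < (nm (v + w) : ℤ) := by exact_mod_cast hlt1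
  have hlt2' : (nm w : ℤ) < (nm (v + w) : ℤ) := by exact_mod_cast hlt2
  have hwpos : (1 : ℤ) ≤ (nm w : ℤ) := by
    exact_mod_cast (one_le_nm hD).2 (prim_ne_zero hw1)
  have hn1 : 0 < ip v w := by
    by_contra hcon
    push Not at hcon
    set n := ip v w with hn
    set A : ℤ := (nm v : ℤ)
    set B : ℤ := (nm w : ℤ)
    have hA : -2 * n + 1 ≤ A := by linarith
    have hB : -2 * n + 1 ≤ B := by linarith
    have h3 : (-2 * n + 1) * (-2 * n + 1) ≤ A * B :=
      mul_le_mul hA hB (by linarith) (by linarith)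
    have h4 : n = 0 := by nlinarith
    rw [h4] at hpr
    nlinarith
  -- the division
  obtain ⟨n0, j, hj, hn0, hn0'⟩ : ∃ n0 j : ℤ, ip v w = n0 + j * (nm v : ℤ) ∧ 0 ≤ n0 ∧
      n0 < (nm v : ℤ) := by
    refine ⟨ip v w % (nm v : ℤ), ip v w / (nm v : ℤ), ?_, ?_, ?_⟩
    · have := Int.emod_add_mul_ediv (ip v w) (nm v : ℤ)
      linarith
    · exact Int.emod_nonneg _ (by linarith)
    · exact Int.emod_lt_of_pos _ (by linarith)
  have hNv : (nm v : ℤ) = v.re ^ 2 + v.im ^ 2 := by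
    rw [nm_cast hD]; ring
  obtain ⟨q, hq⟩ : ∃ q : Gi, q = ⟨w.re - j * v.re, w.im - j * v.im⟩ := ⟨_, rfl⟩
  have hvq : dt v q = 1 := by
    rw [hq]
    unfold dt at h1 ⊢
    simp only
    linarith
  have hivq : ip v q = n0 := by
    rw [hq]
    unfold ip at hj ⊢
    simp only
    rw [hNv] at hj
    linear_combination hj
  obtain ⟨p, hp⟩ : ∃ p : Gi, p = ⟨v.re - q.re, v.im - q.im⟩ := ⟨_, rfl⟩
  have hpv : dt p v = 1 := by
    rw [hp]
    unfold dt at hvq ⊢
    simp only
    linarith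
  have hpq : dt p q = 1 := by
    rw [hp]
    unfold dt at hvq ⊢
    simp only
    linarith
  have hNq : (nm q : ℤ) = q.re ^ 2 + q.im ^ 2 := by
    rw [nm_cast hD]; ring
  have hNp : (nm p : ℤ) = p.re ^ 2 + p.im ^ 2 := by
    rw [nm_cast hD]; ring
  have hipv : ip p v = (nm v : ℤ) - n0 := by
    rw [← hivq, hNv, hp]
    unfold ip
    simp only
    ring
  have hipq : ip p q = n0 - (nm q : ℤ) := by
    rw [← hivq, hNq, hp]
    unfold ip
    simp only
    ring
  have hprq := ip_dt hD v q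
  rw [hvq, hivq] at hprq
  have hprp := ip_dt hD p v
  rw [hpv, hipv] at hprp
  have hpq' : p + q = v := by
    rw [hp]
    apply QuadraticAlgebra.ext
    · simp
    · simp
  set A : ℤ := (nm v : ℤ) with hA
  set Q : ℤ := (nm q : ℤ) with hQ
  set P : ℤ := (nm p : ℤ) with hP
  have hn0pos : 1 ≤ n0 := by
    by_contra hcon
    have h0 : n0 = 0 := by omega
    rw [h0] at hprq
    have h3 : A * Q = 1 := by linarith
    have h4 : 0 ≤ Q := by positivity
    rcases h4.eq_or_lt with h5 | h5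
    · rw [← h5, mul_zero] at h3
      exact zero_ne_one h3
    · have h6 : A * 1 ≤ A * Q := mul_le_mul_of_nonneg_left (by linarith) (by linarith)
      linarith
  have hQA : Q < A := by
    by_contra hcon
    push Not at hcon
    have h3 : A * A ≤ A * Q := mul_le_mul_of_nonneg_left hcon (by linarith)
    have h4 : n0 * n0 ≤ (A - 1) * (A - 1) :=
      mul_le_mul (by linarith) (by linarith) (by linarith) (by linarith)
    linarith
  have hPA : P < A := by
    by_contra hcon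
    push Not at hcon
    have h3 : A * A ≤ P * A := mul_le_mul_of_nonneg_right hcon (by linarith)
    have h4 : (A - n0) * (A - n0) ≤ (A - 1) * (A - 1) :=
      mul_le_mul (by linarith) (by linarith) (by linarith) (by linarith)
    linarith
  have hipq' : 0 < ip p q := by
    rw [hipq]
    have h5 : 0 ≤ (n0 - 1) * (A - n0 - 1) := mul_nonneg (by linarith) (by linarith)
    have h3 : 0 < A * (n0 - Q) := by linarith
    exact (mul_pos_iff_of_pos_left (by linarith)).1 h3
  have hipv' : 0 < ip p v := by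
    rw [hipv]; linarith
  have hivq' : 0 < ip v q := by
    rw [hivq]; linarith
  have hqX : (nm q : ℝ) ≤ X := by
    have : (nm q : ℤ) < (nm v : ℤ) := hQA
    have h3 : (nm q : ℝ) < (nm v : ℝ) := by exact_mod_cast this
    linarith
  have hpX : (nm p : ℝ) ≤ X := by
    have : (nm p : ℤ) < (nm v : ℤ) := hPA
    have h3 : (nm p : ℝ) < (nm v : ℝ) := by exact_mod_cast this
    linarith
  rcases pair_mem F β hpv hipv' hpX hv2 with h | e1
  · exact mem_Bs2 h
  rcases pair_mem F β hpq hipq' hpX hqX with h | e2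
  · have := mem_Bs3 (C := 4) h
    rwa [hpq'] at this
  rcases pair_mem F β hvq hivq' hv2 hqX with h | e3
  · exact mem_Bs1 h
  rcases pair_mem F β h1 hn1 hv2 hw2 with h | e4
  · exact mem_Bs1 h
  exfalso
  apply hne
  exact (e1.trans e2.symm).trans (e3.trans e4.symm)

theorem hitg (hb : W251.GX.S_BETW 0 1) : S_HITG := by
  intro N F _ β
  refine ⟨4, ?_⟩
  intro X hX a b hab z z' hz hz' hza hzb
  constructor
  · intro hdt
    obtain ⟨e, he, hne, h1, h2, h3, h4⟩ := hb ℂ F X z z' hz hz' hdt (by rw [hza, hzb]; exact hab)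
    exact ⟨e.1, core F β he hne, h1, h3.le⟩
  · intro hdt
    obtain ⟨e, he, hne, h1, h2, h3, h4⟩ := hb ℂ F X z' z hz' hz hdt
      (by rw [hza, hzb]; exact hab.symm)
    exact ⟨e.1, core F β he hne, h1, h3.le⟩

end Pool.Agent.W460.GX.Hitg
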